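import Pool.Agent.U707.LI.AllP
import Pool.Agent.U707.LI.Zero

/-!
# Serre's conjecture for elliptic curves: one class for several curves, not an eigenclass

`E_i` are finitely many elliptic curves over the number field `K` (for instance imaginary quadratic of
class number one), `p` an odd prime, `k = 𝔽̄_p`, `R_i` the representation on `E_i[p] ⊗ k`, assumed
irreducible, with different traces for different `i`. `M` is a finite dimensional space over `k`
(for instance `H^1(Y_0(𝓝), k)`, with the torsion) with commuting Hecke operators `H v`, `v` outside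
of `S`, and a two-dimensional pseudorepresentation with values in the Hecke algebra. Suppose that for
SOME class `c` in `M`, not necessarily an eigenclass, some linear form `l` and integers `m_i` prime
to `p` the number `∑ m_i a_v(E_i)` is congruent to `l(T_v c)` modulo `p` for all places `v` outside of
a set of density zero. Then for EVERY `i` there is an eigenclass `c_i` in `M` with
`T_v c_i = tr R_i(Frob_v) c_i` for ALL `v` outside of `S`, the assertion of the conjecture for `E_i`.

The case of one curve: a congruence `a_v(E) ≡ l(T_v c)` with any class.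

Parts of the proof are by helper141, helper851 and helper591 (see `Pool.Agent.U707.LI.AllP`).
-/

set_option autoImplicit false

namespace Pool.Agent.Results.MP_3099cf_nt.OneClassSeveralCurves

open NumberField IsDedekindDomain Module Pool.Agent.W401.Cheb Pool.Agent.U707.LI

/-- `R` is the representation on the `p`-torsion points of the elliptic curve with the minimal
models `E`: at almost all places the trace of Frobenius is `a_v` modulo `p`. -/
def IsTorsion {K k : Type} [Field K] [NumberField K] [Field k]
    (E : HeightOneSpectrum (𝓞 K) → WeierstrassCurve (𝓞 K)) (R : ModPRep K k) : Prop :=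
  ∃ B : Set (HeightOneSpectrum (𝓞 K)), DensityZero B ∧ ∀ v ∉ B, ∀ σ, IsFrob v σ →
    R.tr σ = av E v

/-- **One class for several curves.** -/
theorem result {K : Type} [Field K] [NumberField K] {p : ℕ} [Fact p.Prime] (hp : p ≠ 2)
    -- the elliptic curves and their representations
    {ι : Type} [Fintype ι] (E : ι → WeierstrassCurve K) [∀ i, (E i).IsElliptic]
    (W : ι → HeightOneSpectrum (𝓞 K) → WeierstrassCurve (𝓞 K))
    (_hW : ∀ i, MinimalModels (E i) (W i)) (R : ι → ModPRep K (AlgebraicClosure (ZMod p)))
    (hR : ∀ i, IsTorsion (W i) (R i)) (hne : ∀ i j, i ≠ j → ∃ g, (R i).tr g ≠ (R j).tr g)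
    -- the cohomology and the Hecke operators
    {M : Type} [AddCommGroup M] [Module (AlgebraicClosure (ZMod p)) M]
    [FiniteDimensional (AlgebraicClosure (ZMod p)) M]
    (S : Set (HeightOneSpectrum (𝓞 K)))
    (H : HeightOneSpectrum (𝓞 K) → Module.End (AlgebraicClosure (ZMod p)) M)
    (hH : HasGalois S H)
    -- the class, the linear form, the integers and the congruence
    (c : M) (l : M →ₗ[AlgebraicClosure (ZMod p)] AlgebraicClosure (ZMod p)) (m : ι → ℤ)
    (hm : ∀ i, ¬ (p : ℤ) ∣ m i)
    {B : Set (HeightOneSpectrum (𝓞 K))} (hB : DensityZero B)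
    (h : ∀ v ∉ B, v ∉ S ∧
      ((∑ i, m i * av (W i) v : ℤ) : AlgebraicClosure (ZMod p)) = l (H v c)) (i : ι) :
    ∃ c' : M, c' ≠ 0 ∧ ∀ v ∉ S, ∀ σ, IsFrob v σ → H v c' = (R i).tr σ • c' := by
  classical
  choose D hD hRD using hR
  have hB' : DensityZero (B ∪ ⋃ i, D i) := densityZero_union hB (densityZero_iUnion hD)
  refine modPManyThm (two_ne_zero' hp) R (fun i => (m i : AlgebraicClosure (ZMod p)))
    (fun i hi => hm i ((CharP.intCast_eq_zero_iff _ p (m i)).1 hi)) hne S H hH c l hB'
    (fun v hv => ⟨(h v fun h => hv (Or.inl h)).1, fun σ hσ => ?_⟩) i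
  have h1 := (h v fun h => hv (Or.inl h)).2
  rw [← h1]
  push_cast
  refine Finset.sum_congr rfl fun j _ => ?_
  rw [hRD j v (fun h => hv (Or.inr (Set.mem_iUnion.2 ⟨j, h⟩))) σ hσ]

end Pool.Agent.Results.MP_3099cf_nt.OneClassSeveralCurves
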